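import Pool.Agent.helper32.NN.Spec

set_option autoImplicit false

open Submodule

noncomputable section

namespace Pool.Agent.NN

universe u v

theorem TWO (hSUM : SUM_stmt.{u, v}) (hPRS : PRS_stmt.{u, v}) : TWO_stmt.{u, v} := by
  intro K U _ _ _ A hA S S' hS hS' h1 h2 h3 h4 h5
  obtain ⟨J, j1, j2, j3⟩ := hPRS K U A hA S hS h1 h3
  obtain ⟨J', k1, k2, k3⟩ := hPRS K U A hA S' hS' h2 h4
  obtain ⟨-, n, hn⟩ := hSUM K U A J J' hA.mul j1 k1 j3 k3
  apply hA.notn n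
  have hle : A ≤ J ⊔ J' := by
    rw [← h5]
    exact sup_le_sup j2 k2
  have h6 : A ^ n ≤ (J ⊔ J') ^ n := pow_le_pow_left' hle n
  rw [hn] at h6
  exact le_bot_iff.1 h6

end Pool.Agent.NN
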